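import Mathlib
import Pool.Agent.Lib.MP_9437d9_an.Defs
import Pool.Agent.Lib.MP_9437d9_an.Core

set_option autoImplicit false

open scoped Quaternion Matrix
open Pool.Agent.Lib.MP_9437d9_an

namespace Pool.Agent.Results.MP_9437d9_an.StablyBoundedDefinite

/-- **Answer to Q1 (affirmative).** If the quaternion system
`A_ℓ x^(ℓ) + ... + A_1 x' + A_0 x = 0` (odd coefficients hermitian, even coefficients
skewhermitian, `A_ℓ` invertible) is stably bounded, then every root subspace of its block companion
matrix `C` is `G`-positive or `G`-negative. -/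
theorem result (ℓ n : ℕ) (hℓ : 1 ≤ ℓ) (A : ℕ → Matrix (Fin n) (Fin n) ℍ)
    (hA : IsStructured ℓ n A) (hS : IsStablyBounded ℓ n A) (μ : ℍ)
    (hμ : IsEigenvalue (companion ℓ n A) μ) :
    IsPositiveOn (gram ℓ n A) (rootSubspace (companion ℓ n A) (ℓ * n) μ) ∨
    IsNegativeOn (gram ℓ n A) (rootSubspace (companion ℓ n A) (ℓ * n) μ) :=
  stably_bounded_definite ℓ n hℓ A hA hS μ hμ

end Pool.Agent.Results.MP_9437d9_an.StablyBoundedDefinite
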